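import Pool.Agent.H564R3.SR.Defs

/-! Task C: the counting argument of Schnorr. (helper677) -/

set_option autoImplicit false

namespace Pool.Agent.H564R3.SR

open Finset
open Pool.Agent.H564R3.PW (Instr runs exec syms)
open Pool.Agent.H564R3.TS
open scoped NNReal

section

variable {R X ρ Ω : Type} [Zero R] [DecidableEq X] [DecidableEq ρ]

/-- monomial sets after the first `t` instructions -/
def SRC_st (p : List (Instr R X ρ)) (t : ℕ) : ρ → Set (X → ℕ) := syms (p.take t)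

theorem SRC_st_zero (p : List (Instr R X ρ)) : SRC_st p 0 = fun _ => ∅ := rfl

theorem SRC_st_len (p : List (Instr R X ρ)) : SRC_st p p.length = syms p := by
  rw [SRC_st, List.take_length]

theorem SRC_st_succ (p : List (Instr R X ρ)) {t : ℕ} (ht : t < p.length) :
    SRC_st p (t + 1) = (p[t]).sym (SRC_st p t) := by
  rw [SRC_st, SRC_st, List.take_succ_eq_append_getElem ht, syms, List.foldl_append]
  rfl

/-- `Y` is a context of the set `G` -/
def SRC_Ctx (T G : Set (X → ℕ)) (Y : X → ℕ) : Prop := ∀ Z ∈ G, Z + Y ∈ T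

/-- two different elements use the context `Y` -/
def SRC_Big (T : Set (X → ℕ)) (F : Finset Ω) (U : Ω → X → ℕ) (G : Set (X → ℕ)) (Y : X → ℕ) :
    Prop :=
  SRC_Ctx T G Y ∧ ∃ a ∈ F, ∃ b ∈ F, a ≠ b ∧ ∃ Za ∈ G, ∃ Zb ∈ G, U a = Za + Y ∧ U b = Zb + Y

/-- the side of an addition -/
def SRC_side (p : List (Instr R X ρ)) (t : ℕ) (s : Bool) (j k : ρ) : Set (X → ℕ) :=
  if s = true then SRC_st p t k else SRC_st p t j

/-- a terminal of `ω` -/
def SRC_Term (p : List (Instr R X ρ)) (T : Set (X → ℕ)) (F : Finset Ω) (U : Ω → X → ℕ) (ω : Ω)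
    (t : Fin p.length) (s : Bool) : Prop :=
  ∃ i j k, p[t.val] = Instr.add i j k ∧ ∃ Z Y, SRC_Big T F U (SRC_st p t j ∪ SRC_st p t k) Y ∧
    U ω = Z + Y ∧ Z ∈ SRC_side p t s j k ∧ ¬ SRC_Big T F U (SRC_side p t s j k) Y

theorem SRC_side_sub (p : List (Instr R X ρ)) (t : ℕ) (s : Bool) (j k : ρ) :
    SRC_side p t s j k ⊆ SRC_st p t j ∪ SRC_st p t k := by
  unfold SRC_side
  split_ifs
  · exact Set.subset_union_right
  · exact Set.subset_union_left

variable {T : Set (X → ℕ)} {F : Finset Ω} {U : Ω → X → ℕ}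

theorem SRC_U (hinj : Set.InjOn U F)
    (hex : ∀ ω ∈ F, ∀ ω' ∈ F, ∀ y z y' z' : X → ℕ, y + z = U ω → y' + z' = U ω' →
      y + z' ∈ T → y' + z ∈ T → y = y' ∨ z = z') {G : Set (X → ℕ)} {Y Y' Z : X → ℕ} {ω : Ω}
    (hB : SRC_Big T F U G Y) (hω : ω ∈ F) (hU : U ω = Z + Y') (hZ : Z ∈ G)
    (hC : SRC_Ctx T G Y') : Y' = Y := by
  obtain ⟨hC0, a, ha, b, hb, hab, Za, hZa, Zb, hZb, hUa, hUb⟩ := hB
  by_contra hne
  have h1 : Z = Za := (hex ω hω a ha Z Y' Za Y hU.symm hUa.symm (hC0 Z hZ)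
    (hC Za hZa)).resolve_right hne
  have h2 : Z = Zb := (hex ω hω b hb Z Y' Zb Y hU.symm hUb.symm (hC0 Z hZ)
    (hC Zb hZb)).resolve_right hne
  apply hab
  apply hinj ha hb
  rw [hUa, hUb, ← h1, ← h2]

theorem SRC_unique (p : List (Instr R X ρ)) (hinj : Set.InjOn U F)
    (hex : ∀ ω ∈ F, ∀ ω' ∈ F, ∀ y z y' z' : X → ℕ, y + z = U ω → y' + z' = U ω' →
      y + z' ∈ T → y' + z ∈ T → y = y' ∨ z = z') {ω ω' : Ω} (hω : ω ∈ F) (hω' : ω' ∈ F)
    {t : Fin p.length} {s : Bool} (h : SRC_Term p T F U ω t s) (h' : SRC_Term p T F U ω' t s) :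
    ω = ω' := by
  obtain ⟨i, j, k, he, Z, Y, hB, hU, hZ, hn⟩ := h
  obtain ⟨i', j', k', he', Z', Y', hB', hU', hZ', hn'⟩ := h'
  rw [he] at he'
  injection he' with e1 e2 e3
  subst e1 e2 e3
  have hY : Y' = Y := SRC_U hinj hex hB hω' hU' (SRC_side_sub p t s j k hZ') hB'.1
  subst hY
  by_contra hne
  exact hn ⟨fun W hW => hB.1 W (SRC_side_sub p t s j k hW), ω, hω, ω', hω', hne, Z, hZ, Z', hZ',
    hU, hU'⟩

theorem SRC_exists (p : List (Instr R X ρ)) (hinj : Set.InjOn U F)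
    (hex : ∀ ω ∈ F, ∀ ω' ∈ F, ∀ y z y' z' : X → ℕ, y + z = U ω → y' + z' = U ω' →
      y + z' ∈ T → y' + z ∈ T → y = y' ∨ z = z') (t : ℕ) : t ≤ p.length →
    ∀ (i : ρ) (ω : Ω) (Z Y : X → ℕ), ω ∈ F → SRC_Big T F U (SRC_st p t i) Y → U ω = Z + Y →
      Z ∈ SRC_st p t i → ∃ (t' : Fin p.length) (s : Bool), SRC_Term p T F U ω t' s := by
  induction t with
  | zero =>
    intro _ i ω Z Y _ _ _ hZ
    exact absurd hZ (Set.notMem_empty Z)
  | succ t ih =>
    intro ht i ω Z Y hω hB hU hZ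
    have hlt : t < p.length := ht
    rw [SRC_st_succ p hlt] at hB hZ
    cases hI : p[t] with
    | load i' x =>
      rw [hI] at hB hZ
      by_cases hi : i = i'
      · subst hi
        obtain ⟨_, a, ha, b, hb, hab, Za, hZa, Zb, hZb, hUa, hUb⟩ := hB
        simp only [Instr.sym, Function.update_self, Set.mem_singleton_iff] at hZa hZb
        exact absurd (hinj ha hb (by rw [hUa, hUb, hZa, hZb])) hab
      · simp only [Instr.sym, Function.update_of_ne hi] at hB hZ
        exact ih (by omega) i ω Z Y hω hB hU hZ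
    | const i' c =>
      rw [hI] at hB hZ
      by_cases hi : i = i'
      · subst hi
        obtain ⟨_, a, ha, b, hb, hab, Za, hZa, Zb, hZb, hUa, hUb⟩ := hB
        simp only [Instr.sym, Function.update_self, Set.mem_ofPred_eq] at hZa hZb
        exact absurd (hinj ha hb (by rw [hUa, hUb, hZa.1, hZb.1])) hab
      · simp only [Instr.sym, Function.update_of_ne hi] at hB hZ
        exact ih (by omega) i ω Z Y hω hB hU hZ
    | add i' j k =>
      rw [hI] at hB hZ
      by_cases hi : i = i'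
      · subst hi
        simp only [Instr.sym, Function.update_self] at hB hZ
        rcases hZ with hZ | hZ
        · by_cases hb : SRC_Big T F U (SRC_st p t j) Y
          · exact ih (by omega) j ω Z Y hω hb hU hZ
          · exact ⟨⟨t, hlt⟩, false, i, j, k, hI, Z, Y, hB, hU, hZ, hb⟩
        · by_cases hb : SRC_Big T F U (SRC_st p t k) Y
          · exact ih (by omega) k ω Z Y hω hb hU hZ
          · exact ⟨⟨t, hlt⟩, true, i, j, k, hI, Z, Y, hB, hU, hZ, hb⟩
      · simp only [Instr.sym, Function.update_of_ne hi] at hB hZ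
        exact ih (by omega) i ω Z Y hω hB hU hZ
    | mul i' j k =>
      rw [hI] at hB hZ
      by_cases hi : i = i'
      · subst hi
        simp only [Instr.sym, Function.update_self] at hB hZ
        obtain ⟨hC, a, ha, b, hb, hab, Za, hZa, Zb, hZb, hUa, hUb⟩ := hB
        obtain ⟨ω', hω', hne, Z', hZ', hU'⟩ : ∃ ω' ∈ F, ω ≠ ω' ∧ ∃ Z' ∈ {u : X → ℕ |
            ∃ a ∈ SRC_st p t j, ∃ b ∈ SRC_st p t k, u = a + b}, U ω' = Z' + Y := by
          by_cases h : ω = a
          · exact ⟨b, hb, by rw [h]; exact hab, Zb, hZb, hUb⟩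
          · exact ⟨a, ha, h, Za, hZa, hUa⟩
        obtain ⟨Z1, hZ1, Z2, hZ2, hZe⟩ := hZ
        obtain ⟨Z1', hZ1', Z2', hZ2', hZe'⟩ := hZ'
        have hcc : ∀ A ∈ SRC_st p t j, ∀ B ∈ SRC_st p t k, A + B + Y ∈ T := fun A hA B hB' =>
          hC (A + B) ⟨A, hA, B, hB', rfl⟩
        have e1 : Z1 + (Z2 + Y) = U ω := by rw [hU, hZe, add_assoc]
        have e2 : Z1' + (Z2' + Y) = U ω' := by rw [hU', hZe', add_assoc]
        have h3 : Z1 + (Z2' + Y) ∈ T := by
          rw [← add_assoc]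
          exact hcc Z1 hZ1 Z2' hZ2'
        have h4 : Z1' + (Z2 + Y) ∈ T := by
          rw [← add_assoc]
          exact hcc Z1' hZ1' Z2 hZ2
        rcases hex ω hω ω' hω' Z1 (Z2 + Y) Z1' (Z2' + Y) e1 e2 h3 h4 with h | h
        · refine ih (by omega) k ω Z2 (Z1 + Y) hω ⟨fun W hW => ?_, ω, hω, ω', hω', hne, Z2, hZ2,
            Z2', hZ2', ?_, ?_⟩ ?_ hZ2
          · have : W + (Z1 + Y) = Z1 + W + Y := by rw [← add_assoc, add_comm W Z1]
            rw [this]
            exact hcc Z1 hZ1 W hW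
          · rw [← e1, ← add_assoc, ← add_assoc, add_comm Z1 Z2]
          · rw [← e2, ← h, ← add_assoc, ← add_assoc, add_comm Z1 Z2']
          · rw [← e1, ← add_assoc, ← add_assoc, add_comm Z1 Z2]
        · refine ih (by omega) j ω Z1 (Z2 + Y) hω ⟨fun W hW => ?_, ω, hω, ω', hω', hne, Z1, hZ1,
            Z1', hZ1', e1.symm, ?_⟩ e1.symm hZ1
          · rw [← add_assoc]
            exact hcc W hW Z2 hZ2
          · rw [← e2, h]
      · simp only [Instr.sym, Function.update_of_ne hi] at hB hZ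
        exact ih (by omega) i ω Z Y hω hB hU hZ

end

theorem schnorr {R X ρ Ω : Type} [Zero R] [DecidableEq X] [DecidableEq ρ]
    (p : List (Instr R X ρ)) (o : ρ) (F : Finset Ω) (U : Ω → X → ℕ) (hinj : Set.InjOn U F)
    (hmem : ∀ ω ∈ F, U ω ∈ syms p o)
    (hex : ∀ ω ∈ F, ∀ ω' ∈ F, ∀ y z y' z' : X → ℕ, y + z = U ω → y' + z' = U ω' →
      y + z' ∈ syms p o → y' + z ∈ syms p o → y = y' ∨ z = z') :
    F.card ≤ 2 * p.length := by
  classical
  rcases Nat.lt_or_ge F.card 2 with h2 | h2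
  · rcases Nat.eq_zero_or_pos F.card with h0 | h0
    · omega
    · obtain ⟨ω, hω⟩ := Finset.card_pos.1 h0
      have h3 := hmem ω hω
      have hp : p ≠ [] := by
        rintro rfl
        exact h3
      have := List.length_pos_iff.2 hp
      omega
  · have hterm : ∀ ω : F, ∃ ts : Fin p.length × Bool,
        SRC_Term p (syms p o) F U ω.1 ts.1 ts.2 := by
      intro ω
      obtain ⟨ω', hω', hne⟩ := Finset.exists_mem_ne (Nat.lt_of_succ_le h2) ω.1
      obtain ⟨t, s, hts⟩ := SRC_exists p hinj hex p.length le_rfl o ω.1 (U ω.1) 0 ω.2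
        (by
          rw [SRC_st_len]
          exact ⟨fun Z hZ => by rw [add_zero]; exact hZ, ω.1, ω.2, ω', hω', hne.symm, U ω.1,
            hmem _ ω.2, U ω', hmem _ hω', (add_zero _).symm, (add_zero _).symm⟩)
        (add_zero _).symm (by rw [SRC_st_len]; exact hmem _ ω.2)
      exact ⟨(t, s), hts⟩
    choose f hf using hterm
    have hfi : Function.Injective f := by
      intro ω ω' h
      have h1 := hf ω
      have h3 := hf ω'
      rw [← h] at h3
      exact Subtype.ext (SRC_unique p hinj hex ω.2 ω'.2 h1 h3)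
    have h4 := Fintype.card_le_of_injective f hfi
    rw [Fintype.card_coe, Fintype.card_prod, Fintype.card_fin, Fintype.card_bool] at h4
    omega

end Pool.Agent.H564R3.SR
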