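import Pool.Agent.H564R3.TS.Defs
import Pool.Agent.H564R3.TS.Real

/-!
Weighted binary constraint satisfaction by randomised pure programs: definitions.
-/

set_option autoImplicit false

namespace Pool.Agent.H564R3.SR

open Finset
open Pool.Agent.H564R3.PW (Instr runs exec syms)
open Pool.Agent.H564R3.TS
open scoped NNReal

/-- the cost variables: a pair of nodes and a pair of labels -/
abbrev Var (n q : ℕ) : Type := Fin n × Fin n × Fin q × Fin q

/-- the pairs of nodes -/
def prs (n : ℕ) : Finset (Fin n × Fin n) := univ.filter fun e => e.1 < e.2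

/-- the cost variable of the pair `e` for the labelling `a` -/
def cvar {n q : ℕ} (a : Fin n → Fin q) (e : Fin n × Fin n) : Var n q := (e.1, e.2, a e.1, a e.2)

/-- the sum over all labellings of the `n` nodes with `q` labels of the product of the costs of all
pairs of nodes (over the tropical semiring: the least total cost of a labelling) -/
def cspSum {R : Type} [CommSemiring R] {n q : ℕ} (w : Var n q → R) : R :=
  ∑ a : Fin n → Fin q, ∏ e ∈ prs n, w (cvar a e)

/-- the cost variables of a labelling -/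
def aset {n q : ℕ} (a : Fin n → Fin q) : Finset (Var n q) := (prs n).image (cvar a)

/-- Generic costs for which all labellings have the same total cost `C`. -/
structure Wts (n q : ℕ) (κ : Var n q → ℕ) (C : ℕ) : Prop where
  tot : ∀ a : Fin n → Fin q, ∑ x ∈ aset a, κ x = C
  one : ∀ (a : Fin n → Fin q) (u : Var n q → ℕ), (∀ x, x ∉ aset a → u x = 0) →
    ∑ x, u x * κ x = C → u = ind (aset a)
  gen : ∀ (a b : Fin n → Fin q) (P P' : Finset (Fin n × Fin n)), P ⊆ prs n → P' ⊆ prs n →
    ∑ e ∈ P, κ (cvar a e) = ∑ e ∈ P', κ (cvar b e) →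
      P = P' ∧ ∀ v, a v ≠ b v →
        (∀ e ∈ prs n, e.1 = v ∨ e.2 = v → e ∈ P) ∨ ∀ e ∈ P, e.1 ≠ v ∧ e.2 ≠ v

/-- The (min,+) program `p` writes the least total cost of a labelling into register `o` for the
costs `w`. -/
def Correct {n q : ℕ} {ρ : Type} [DecidableEq ρ]
    (p : List (Instr (Tropical (WithTop ℝ)) (Var n q) ρ)) (o : ρ) (w : Var n q → ℕ) : Prop :=
  exec (fun x => Tropical.trop (((w x : ℕ) : ℝ) : WithTop ℝ)) p o =
    cspSum (fun x => Tropical.trop (((w x : ℕ) : ℝ) : WithTop ℝ))

open Classical in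
/-- A finite probability distribution `pr` on (min,+) programs `p l` which for all costs is correct
with probability at least `1 - e`. -/
noncomputable def RandomMin {n q : ℕ} {ρ : Type} [DecidableEq ρ] {Λ : Type} [Fintype Λ] (e : ℝ)
    (pr : Λ → ℝ) (p : Λ → List (Instr (Tropical (WithTop ℝ)) (Var n q) ρ)) (o : ρ) : Prop :=
  (∀ l, 0 ≤ pr l) ∧ ∑ l, pr l = 1 ∧
    ∀ w : Var n q → ℕ, 1 - e ≤ ∑ l, if Correct (p l) o w then pr l else 0

/-- The program `p` over the nonnegative reals writes `cspSum w` into register `o` up to a factor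
`r`. -/
def Approx {n q : ℕ} {ρ : Type} [DecidableEq ρ] (r : ℝ≥0)
    (p : List (Instr ℝ≥0 (Var n q) ρ)) (o : ρ) (w : Var n q → ℕ) : Prop :=
  cspSum (fun x => ((w x : ℕ) : ℝ≥0)) ≤ r * exec (fun x => ((w x : ℕ) : ℝ≥0)) p o ∧
    exec (fun x => ((w x : ℕ) : ℝ≥0)) p o ≤ r * cspSum (fun x => ((w x : ℕ) : ℝ≥0))

open Classical in
/-- A finite probability distribution `pr` on programs `p l` over the nonnegative reals which for
all natural weights approximates `cspSum` up to a factor `r` with probability at least `1 - e`. -/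
noncomputable def RandomApprox {n q : ℕ} {ρ : Type} [DecidableEq ρ] {Λ : Type} [Fintype Λ] (e : ℝ)
    (r : ℝ≥0) (pr : Λ → ℝ) (p : Λ → List (Instr ℝ≥0 (Var n q) ρ)) (o : ρ) : Prop :=
  (∀ l, 0 ≤ pr l) ∧ ∑ l, pr l = 1 ∧
    ∀ w : Var n q → ℕ, 1 - e ≤ ∑ l, if Approx r (p l) o w then pr l else 0

end Pool.Agent.H564R3.SR
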