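import Pool.Agent.H564R3.SR.Defs

/-! The exchange property of the labellings under generic costs. -/

set_option autoImplicit false

namespace Pool.Agent.H564R3.SR

open Finset
open Pool.Agent.H564R3.PW (Instr runs exec syms)
open Pool.Agent.H564R3.TS
open scoped NNReal

theorem SRB_inj {n q : ℕ} (a : Fin n → Fin q) : Function.Injective (cvar a) := by
  rintro ⟨e1, e2⟩ ⟨f1, f2⟩ h
  simp only [cvar, Prod.mk.injEq] at h
  rw [Prod.mk.injEq]
  exact ⟨h.1, h.2.1⟩

theorem SRB_eq {n q : ℕ} {a b : Fin n → Fin q} {e f : Fin n × Fin n}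
    (h : cvar a e = cvar b f) : e = f ∧ a e.1 = b e.1 ∧ a e.2 = b e.2 := by
  obtain ⟨e1, e2⟩ := e
  obtain ⟨f1, f2⟩ := f
  simp only [cvar, Prod.mk.injEq] at h
  obtain ⟨h1, h2, h3, h4⟩ := h
  subst h1
  subst h2
  exact ⟨rfl, h3, h4⟩

theorem SRB_pair {n : ℕ} (v u : Fin n) (h : u ≠ v) :
    ∃ e ∈ prs n, (e.1 = v ∨ e.2 = v) ∧ (e.1 = u ∨ e.2 = u) := by
  rcases lt_or_gt_of_ne h with h | h
  · exact ⟨(u, v), by simpa [prs] using h, Or.inr rfl, Or.inl rfl⟩
  · exact ⟨(v, u), by simpa [prs] using h, Or.inl rfl, Or.inr rfl⟩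

theorem aset_sum {R : Type} [AddCommMonoid R] {n q : ℕ} (a : Fin n → Fin q) (f : Var n q → R) :
    ∑ x ∈ aset a, f x = ∑ e ∈ prs n, f (cvar a e) := by
  unfold aset
  rw [Finset.sum_image]
  exact fun x _ y _ hxy => SRB_inj a hxy

theorem aset_inj {n q : ℕ} (hn : 2 ≤ n) (a b : Fin n → Fin q) (h : aset a = aset b) : a = b := by
  funext v
  obtain ⟨u, hu⟩ : ∃ u : Fin n, u ≠ v := by
    by_cases hv : v.1 = 0
    · exact ⟨⟨1, by omega⟩, fun hh => by
        have := congrArg Fin.val hh
        simp only at this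
        omega⟩
    · exact ⟨⟨0, by omega⟩, fun hh => by
        have := congrArg Fin.val hh
        simp only at this
        omega⟩
  obtain ⟨e, he, hev, -⟩ := SRB_pair v u hu
  have hm : cvar a e ∈ aset b := by
    rw [← h]
    exact Finset.mem_image_of_mem _ he
  obtain ⟨f, _, hf⟩ := Finset.mem_image.mp hm
  obtain ⟨_, h1, h2⟩ := SRB_eq hf.symm
  rcases hev with hev | hev
  · rw [← hev]
    exact h1
  · rw [← hev]
    exact h2

/-- the summands of the indicator of a labelling are indicators of sets of pairs -/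
theorem SRB_char {n q : ℕ} (a : Fin n → Fin q) (y z : Var n q → ℕ) (ha : y + z = ind (aset a)) :
    ∃ P : Finset (Fin n × Fin n), P ⊆ prs n ∧ y = ind (P.image (cvar a)) ∧
      z = ind ((prs n \ P).image (cvar a)) := by
  have hx : ∀ x, y x + z x = if x ∈ aset a then 1 else 0 := fun x => congrFun ha x
  refine ⟨(prs n).filter (fun e => y (cvar a e) = 1), Finset.filter_subset _ _, ?_, ?_⟩
  · funext x
    unfold ind
    split_ifs with h
    · obtain ⟨e, he, rfl⟩ := Finset.mem_image.mp h
      exact (Finset.mem_filter.mp he).2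
    · by_contra hne
      have h1 := hx x
      by_cases hxa : x ∈ aset a
      · rw [if_pos hxa] at h1
        obtain ⟨e, he, rfl⟩ := Finset.mem_image.mp hxa
        apply h
        refine Finset.mem_image_of_mem _ (Finset.mem_filter.mpr ⟨he, ?_⟩)
        omega
      · rw [if_neg hxa] at h1
        omega
  · funext x
    unfold ind
    split_ifs with h
    · obtain ⟨e, he, rfl⟩ := Finset.mem_image.mp h
      have h1 := hx (cvar a e)
      rw [Finset.mem_sdiff] at he
      have h3 : cvar a e ∈ aset a := Finset.mem_image_of_mem _ he.1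
      rw [if_pos h3] at h1
      have h2 : ¬ (y (cvar a e) = 1) := fun hh => he.2 (Finset.mem_filter.mpr ⟨he.1, hh⟩)
      omega
    · by_contra hne
      have h1 := hx x
      by_cases hxa : x ∈ aset a
      · rw [if_pos hxa] at h1
        obtain ⟨e, he, rfl⟩ := Finset.mem_image.mp hxa
        apply h
        refine Finset.mem_image_of_mem _ (Finset.mem_sdiff.mpr ⟨he, ?_⟩)
        rw [Finset.mem_filter]
        rintro ⟨_, h2⟩
        omega
      · rw [if_neg hxa] at h1
        omega

/-- the cost of the indicator of a set of pairs -/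
theorem SRB_cost {n q : ℕ} (κ : Var n q → ℕ) (a : Fin n → Fin q) (P : Finset (Fin n × Fin n)) :
    ∑ x, ind (P.image (cvar a)) x * κ x = ∑ e ∈ P, κ (cvar a e) := by
  have h1 : ∀ x, ind (P.image (cvar a)) x * κ x = if x ∈ P.image (cvar a) then κ x else 0 := by
    intro x
    unfold ind
    split_ifs <;> simp
  rw [Finset.sum_congr rfl fun x _ => h1 x, Finset.sum_ite_mem, Finset.univ_inter,
    Finset.sum_image]
  exact fun x _ y _ hxy => SRB_inj a hxy

theorem exchange {n q : ℕ} (hn : 2 ≤ n) {κ : Var n q → ℕ} {C : ℕ} (hw : Wts n q κ C)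
    (T : Set (Var n q → ℕ))
    (hbal : (∀ u ∈ T, C ≤ ∑ x, u x * κ x) ∨ ∀ u ∈ T, ∑ x, u x * κ x ≤ C)
    (a b : Fin n → Fin q) (y z y' z' : Var n q → ℕ) (ha : y + z = ind (aset a))
    (hb : y' + z' = ind (aset b)) (h1 : y + z' ∈ T) (h2 : y' + z ∈ T) : y = y' ∨ z = z' := by
  have hadd : ∀ f g : Var n q → ℕ, ∑ x, (f + g) x * κ x = ∑ x, f x * κ x + ∑ x, g x * κ x := by
    intro f g
    rw [← Finset.sum_add_distrib]
    exact Finset.sum_congr rfl fun x _ => by rw [Pi.add_apply, add_mul]
  have htot : ∀ c : Fin n → Fin q, ∑ x, ind (aset c) x * κ x = C := by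
    intro c
    unfold aset
    rw [SRB_cost, ← aset_sum c κ]
    exact hw.tot c
  have e1 : ∑ x, y x * κ x + ∑ x, z x * κ x = C := by
    rw [← hadd, ha]
    exact htot a
  have e2 : ∑ x, y' x * κ x + ∑ x, z' x * κ x = C := by
    rw [← hadd, hb]
    exact htot b
  have e3 : ∑ x, y x * κ x = ∑ x, y' x * κ x := by
    rcases hbal with hbal | hbal
    · have a1 := hbal _ h1
      have a2 := hbal _ h2
      rw [hadd] at a1 a2
      omega
    · have a1 := hbal _ h1
      have a2 := hbal _ h2
      rw [hadd] at a1 a2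
      omega
  obtain ⟨P, hP, hy, hz⟩ := SRB_char a y z ha
  obtain ⟨P', hP', hy', hz'⟩ := SRB_char b y' z' hb
  have e4 : ∑ e ∈ P, κ (cvar a e) = ∑ e ∈ P', κ (cvar b e) := by
    rw [← SRB_cost, ← SRB_cost, ← hy, ← hy']
    exact e3
  obtain ⟨hPP, hv⟩ := hw.gen a b P P' hP hP' e4
  subst hPP
  by_cases hk : ∃ v, a v ≠ b v ∧ ∀ e ∈ prs n, e.1 = v ∨ e.2 = v → e ∈ P
  · right
    obtain ⟨v, hvne, hall⟩ := hk
    have hall' : ∀ u, a u ≠ b u → ∀ e ∈ prs n, e.1 = u ∨ e.2 = u → e ∈ P := by
      intro u hu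
      by_cases huv : u = v
      · subst huv
        exact hall
      · rcases hv u hu with h | h
        · exact h
        · exfalso
          obtain ⟨e, he, hev, heu⟩ := SRB_pair v u huv
          have := h e (hall e he hev)
          rcases heu with heu | heu
          · exact this.1 heu
          · exact this.2 heu
    rw [hz, hz']
    congr 1
    refine Finset.image_congr fun e he => ?_
    rw [Finset.mem_coe, Finset.mem_sdiff] at he
    have g1 : a e.1 = b e.1 := by
      by_contra hne
      exact he.2 (hall' _ hne e he.1 (Or.inl rfl))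
    have g2 : a e.2 = b e.2 := by
      by_contra hne
      exact he.2 (hall' _ hne e he.1 (Or.inr rfl))
    unfold cvar
    rw [g1, g2]
  · left
    have hnone : ∀ u, a u ≠ b u → ∀ e ∈ P, e.1 ≠ u ∧ e.2 ≠ u := by
      intro u hu
      rcases hv u hu with h | h
      · exact absurd ⟨u, hu, h⟩ hk
      · exact h
    rw [hy, hy']
    congr 1
    refine Finset.image_congr fun e he => ?_
    rw [Finset.mem_coe] at he
    have g1 : a e.1 = b e.1 := by
      by_contra hne
      exact (hnone _ hne e he).1 rfl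
    have g2 : a e.2 = b e.2 := by
      by_contra hne
      exact (hnone _ hne e he).2 rfl
    unfold cvar
    rw [g1, g2]

end Pool.Agent.H564R3.SR
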