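import Pool.Agent.H564R3.SR.Wts
import Pool.Agent.H564R3.SR.Exchange
import Pool.Agent.H564R3.SR.Core
import Pool.Agent.H564R3.RD.Tests
import Pool.Agent.H564R3.RD.Pick
import Pool.Agent.H564R3.SV.Good

/-! Randomised (min,+) programs for weighted binary constraint satisfaction. -/

set_option autoImplicit false

namespace Pool.Agent.H564R3.SR

open Finset
open Pool.Agent.H564R3.PW (Instr runs exec syms)
open Pool.Agent.H564R3.TS
open Pool.Agent.H564R3.RD (pick tests)
open scoped NNReal

/-- the least total cost -/
theorem M_inf {n q : ℕ} (w : Var n q → ℕ) :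
    Tropical.untrop (cspSum (fun x => Tropical.trop (((w x : ℕ) : ℝ) : WithTop ℝ))) =
      (univ : Finset (Fin n → Fin q)).inf
        (fun a => (((∑ x ∈ aset a, w x : ℕ) : ℝ) : WithTop ℝ)) := by
  unfold cspSum
  rw [Finset.untrop_sum']
  refine Finset.inf_congr rfl fun a _ => ?_
  simp only [Function.comp_apply]
  have h1 := SV.G_prod (aset a) w
  have h2 : ∏ x ∈ aset a, Tropical.trop (((w x : ℕ) : ℝ) : WithTop ℝ) =
      ∏ e ∈ prs n, Tropical.trop (((w (cvar a e) : ℕ) : ℝ) : WithTop ℝ) := by
    unfold aset
    rw [prod_image]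
    intro e _ e' _ h
    have e1 : e.1 = e'.1 := congrArg (fun x : Var n q => x.1) h
    have e2 : e.2 = e'.2 := congrArg (fun x : Var n q => x.2.1) h
    exact Prod.ext e1 e2
  rw [← h2, h1]
  rfl

theorem random_min {n q : ℕ} {ρ : Type} [DecidableEq ρ] {Λ : Type} [Fintype Λ] (hn : 2 ≤ n)
    (e : ℝ) (pr : Λ → ℝ) (p : Λ → List (Instr (Tropical (WithTop ℝ)) (Var n q) ρ)) (o : ρ)
    (h : RandomMin e pr p o) (T : ℕ) (hT : ∀ l, (p l).length ≤ T) :
    (1 - 2 * e) * (q : ℝ) ^ n ≤ 2 * T := by
  classical
  obtain ⟨hq, hsum, hcor⟩ := h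
  obtain ⟨κ, C, hw⟩ := wts_exists n q hn
  choose t₀ ht₀ using fun l => tests (p l) o
  obtain ⟨t, ht⟩ : ∃ t : ℕ, ∀ l, t₀ l ≤ t := ⟨univ.sup t₀, fun l => le_sup (mem_univ l)⟩
  rcases Nat.eq_zero_or_pos q with hq0 | hq0
  · subst hq0
    rw [Nat.cast_zero, zero_pow (by omega), mul_zero]
    positivity
  set κA : (Fin n → Fin q) → Var n q → ℕ := fun a x => if x ∈ aset a then κ x else C + 1 with hκA
  set F : Finset (Fin n → Fin q) := univ with hF
  have hFc : F.card = q ^ n := by
    rw [hF, card_univ, Fintype.card_fun, Fintype.card_fin, Fintype.card_fin]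
  have a₀ : Fin n → Fin q := fun _ => ⟨0, hq0⟩
  have h1 : ∀ l, Correct (p l) o (fun x => t * κ x) →
      ∀ u ∈ syms (p l) o, C ≤ ∑ x, u x * κ x := by
    intro l hc
    refine (ht₀ l t (ht l) κ C).1 ?_
    unfold Correct at hc
    rw [hc, M_inf (fun x => t * κ x)]
    refine Finset.le_inf fun a _ => ?_
    rw [← mul_sum, hw.tot a]
  have h2 : ∀ l, ∀ a ∈ F, Correct (p l) o (fun x => t * κ x) →
      Correct (p l) o (fun x => t * κA a x) → ind (aset a) ∈ syms (p l) o := by
    intro l a _ hc1 hc2
    obtain ⟨u, hu, hle⟩ := (ht₀ l t (ht l) (κA a) C).2 (by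
      unfold Correct at hc2
      rw [hc2, M_inf (fun x => t * κA a x)]
      refine (Finset.inf_le (mem_univ a)).trans (le_of_eq ?_)
      rw [← mul_sum]
      have : ∑ x ∈ aset a, κA a x = C := by
        rw [← hw.tot a]
        refine sum_congr rfl fun x hx => ?_
        rw [hκA]
        simp only [if_pos hx]
      rw [this])
    have hge := h1 l hc1 u hu
    have hoff : ∀ x, x ∉ aset a → u x = 0 := by
      intro x hx
      by_contra hux
      have h3 : u x * κA a x ≤ ∑ x, u x * κA a x :=
        single_le_sum (f := fun x => u x * κA a x) (fun _ _ => Nat.zero_le _) (mem_univ x)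
      have h4 : κA a x = C + 1 := by
        rw [hκA]
        simp only [if_neg hx]
      rw [h4] at h3
      have h5 : 1 * (C + 1) ≤ u x * (C + 1) := Nat.mul_le_mul_right _ (Nat.pos_of_ne_zero hux)
      omega
    have heq : ∑ x, u x * κA a x = ∑ x, u x * κ x := by
      refine sum_congr rfl fun x _ => ?_
      by_cases hx : x ∈ aset a
      · rw [hκA]
        simp only [if_pos hx]
      · rw [hoff x hx, zero_mul, zero_mul]
    rw [heq] at hle
    have h6 := hw.one a u hoff (le_antisymm hle hge)
    rw [← h6]
    exact hu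
  obtain ⟨l, hl⟩ := pick pr hq hsum e F (fun l => Correct (p l) o (fun x => t * κ x))
    (fun l a => Correct (p l) o (fun x => t * κA a x)) (by
      have := hcor (fun x => t * κ x)
      convert this using 3) (by
      intro a _
      have := hcor (fun x => t * κA a x)
      convert this using 3)
  rcases le_or_gt (1 - 2 * e) 0 with he | he
  · refine (mul_nonpos_of_nonpos_of_nonneg he (by positivity)).trans (by positivity)
  · set F' := F.filter (fun a => Correct (p l) o (fun x => t * κ x) ∧
      Correct (p l) o (fun x => t * κA a x)) with hF'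
    have hcard : (1 - 2 * e) * (q : ℝ) ^ n ≤ (F'.card : ℝ) := by
      have := hl
      rw [hFc] at this
      push_cast at this
      exact this
    have hqn : (0 : ℝ) < (q : ℝ) ^ n := by positivity
    have hne : 0 < F'.card := by
      have : (0 : ℝ) < (F'.card : ℝ) := lt_of_lt_of_le (mul_pos he hqn) hcard
      exact_mod_cast this
    obtain ⟨A₀, hA₀⟩ := card_pos.1 hne
    have hG := (mem_filter.1 hA₀).2.1
    have hs := schnorr (p l) o F' (fun a => ind (aset a)) (by
        intro a _ b _ hab
        refine aset_inj hn a b ?_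
        ext x
        have := congrFun hab x
        simp only [ind] at this
        constructor
        · intro hx
          by_contra hx'
          rw [if_pos hx, if_neg hx'] at this
          exact absurd this (by norm_num)
        · intro hx
          by_contra hx'
          rw [if_pos hx, if_neg hx'] at this
          exact absurd this (by norm_num)) (by
        intro a ha
        rw [hF', mem_filter] at ha
        exact h2 l a ha.1 hG ha.2.2) (by
        intro a _ b _ y z y' z' ha hb h3 h4
        exact exchange hn hw (syms (p l) o) (Or.inl (h1 l hG)) a b y z y' z' ha hb h3 h4)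
    have hs2 : F'.card ≤ 2 * T := hs.trans (Nat.mul_le_mul_left _ (hT l))
    have hs3 : (F'.card : ℝ) ≤ 2 * T := by exact_mod_cast hs2
    exact hcard.trans hs3

end Pool.Agent.H564R3.SR
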