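import Pool.Agent.H564R3.SR.Main
import Pool.Agent.H564R3.AP.TestsNN

/-! Randomised approximation of the partition function by pure programs. -/

set_option autoImplicit false

namespace Pool.Agent.H564R3.SR

open Finset
open Pool.Agent.H564R3.PW (Instr runs exec syms)
open Pool.Agent.H564R3.TS
open Pool.Agent.H564R3.RD (pick)
open Pool.Agent.H564R3.AP (tests_nn)
open scoped NNReal

theorem M_prod {n q : ℕ} (a : Fin n → Fin q) (f : Var n q → ℝ≥0) :
    ∏ e ∈ prs n, f (cvar a e) = ∏ x ∈ aset a, f x := by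
  unfold aset
  rw [prod_image]
  intro e _ e' _ h
  have e1 : e.1 = e'.1 := congrArg (fun x : Var n q => x.1) h
  have e2 : e.2 = e'.2 := congrArg (fun x : Var n q => x.2.1) h
  exact Prod.ext e1 e2

theorem random_approx {n q : ℕ} {ρ : Type} [DecidableEq ρ] {Λ : Type} [Fintype Λ] (hn : 2 ≤ n)
    (e : ℝ) (r : ℝ≥0) (pr : Λ → ℝ) (p : Λ → List (Instr ℝ≥0 (Var n q) ρ)) (o : ρ)
    (h : RandomApprox e r pr p o) (T : ℕ) (hT : ∀ l, (p l).length ≤ T) :
    (1 - 2 * e) * (q : ℝ) ^ n ≤ 2 * T := by
  classical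
  obtain ⟨hq, hsum, hcor⟩ := h
  obtain ⟨κ, C, hw⟩ := wts_exists n q hn
  choose t₀ ht₀ using fun l => tests_nn (p l) o (r * ((q ^ n : ℕ) : ℝ≥0) + r)
  obtain ⟨t, ht⟩ : ∃ t : ℕ, ∀ l, t₀ l ≤ t := ⟨univ.sup t₀, fun l => le_sup (mem_univ l)⟩
  rcases Nat.eq_zero_or_pos q with hq0 | hq0
  · subst hq0
    rw [Nat.cast_zero, zero_pow (by omega), mul_zero]
    positivity
  set F : Finset (Fin n → Fin q) := univ with hF
  have hFc : F.card = q ^ n := by
    rw [hF, card_univ, Fintype.card_fun, Fintype.card_fin, Fintype.card_fin]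
  have hprod : ∀ a : Fin n → Fin q, ∏ x ∈ aset a, ((t ^ κ x : ℕ) : ℝ≥0) = (t : ℝ≥0) ^ C := by
    intro a
    rw [← Nat.cast_prod, prod_pow_eq_pow_sum, hw.tot a, Nat.cast_pow]
  have h1 : ∀ l, Approx r (p l) o (fun x => t ^ κ x) →
      ∀ u ∈ syms (p l) o, ∑ x, u x * κ x ≤ C := by
    rintro l ⟨_, hv⟩
    refine (ht₀ l t (ht l) κ C).1 (hv.trans ?_)
    unfold cspSum
    rw [sum_congr rfl (fun a _ => (M_prod a (fun x => ((t ^ κ x : ℕ) : ℝ≥0))).trans (hprod a)),
      sum_const, ← hF, hFc, nsmul_eq_mul, ← mul_assoc]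
    exact mul_le_mul_left le_self_add _
  have h2 : ∀ l, ∀ a ∈ F, Approx r (p l) o (fun x => t ^ κ x) →
      Approx r (p l) o (fun x => if x ∈ aset a then t ^ κ x else 0) →
        ind (aset a) ∈ syms (p l) o := by
    intro l a _ hc1 hc2
    have hge : (t : ℝ≥0) ^ C ≤
        cspSum (fun x => (((if x ∈ aset a then t ^ κ x else 0 : ℕ)) : ℝ≥0)) := by
      unfold cspSum
      refine le_trans (le_of_eq ?_) (single_le_sum (f := fun b : Fin n → Fin q =>
        ∏ e ∈ prs n, (((if cvar b e ∈ aset a then t ^ κ (cvar b e) else 0 : ℕ)) : ℝ≥0))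
        (fun _ _ => bot_le) (mem_univ a))
      rw [← hprod a, M_prod a (fun x => (((if x ∈ aset a then t ^ κ x else 0 : ℕ)) : ℝ≥0))]
      refine prod_congr rfl fun x hx => ?_
      rw [if_pos hx]
    obtain ⟨u, hu, hoff, hle⟩ := (ht₀ l t (ht l) κ C).2 (aset a) (by
      refine (hge.trans hc2.1).trans ?_
      exact mul_le_mul_left le_add_self _)
    have hge := h1 l hc1 u hu
    have h6 := hw.one a u hoff (le_antisymm hge hle)
    rw [← h6]
    exact hu
  obtain ⟨l, hl⟩ := pick pr hq hsum e F (fun l => Approx r (p l) o (fun x => t ^ κ x))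
    (fun l a => Approx r (p l) o (fun x => if x ∈ aset a then t ^ κ x else 0)) (by
      have := hcor (fun x => t ^ κ x)
      convert this using 3) (by
      intro a _
      have := hcor (fun x => if x ∈ aset a then t ^ κ x else 0)
      convert this using 3)
  rcases le_or_gt (1 - 2 * e) 0 with he | he
  · refine (mul_nonpos_of_nonpos_of_nonneg he (by positivity)).trans (by positivity)
  · set F' := F.filter (fun a => Approx r (p l) o (fun x => t ^ κ x) ∧
      Approx r (p l) o (fun x => if x ∈ aset a then t ^ κ x else 0)) with hF'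
    have hcard : (1 - 2 * e) * (q : ℝ) ^ n ≤ (F'.card : ℝ) := by
      have := hl
      rw [hFc] at this
      push_cast at this
      exact this
    have hqn : (0 : ℝ) < (q : ℝ) ^ n := by positivity
    have hne : 0 < F'.card := by
      have : (0 : ℝ) < (F'.card : ℝ) := lt_of_lt_of_le (mul_pos he hqn) hcard
      exact_mod_cast this
    obtain ⟨A₀, hA₀⟩ := card_pos.1 hne
    have hG := (mem_filter.1 hA₀).2.1
    have hs := schnorr (p l) o F' (fun a => ind (aset a)) (by
        intro a _ b _ hab
        refine aset_inj hn a b ?_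
        ext x
        have := congrFun hab x
        simp only [ind] at this
        constructor
        · intro hx
          by_contra hx'
          rw [if_pos hx, if_neg hx'] at this
          exact absurd this (by norm_num)
        · intro hx
          by_contra hx'
          rw [if_pos hx, if_neg hx'] at this
          exact absurd this (by norm_num)) (by
        intro a ha
        rw [hF', mem_filter] at ha
        exact h2 l a ha.1 hG ha.2.2) (by
        intro a _ b _ y z y' z' ha hb h3 h4
        exact exchange hn hw (syms (p l) o) (Or.inr (h1 l hG)) a b y z y' z' ha hb h3 h4)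
    have hs2 : F'.card ≤ 2 * T := hs.trans (Nat.mul_le_mul_left _ (hT l))
    have hs3 : (F'.card : ℝ) ≤ 2 * T := by exact_mod_cast hs2
    exact hcard.trans hs3

end Pool.Agent.H564R3.SR
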