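import Pool.Agent.H564R3.SR.Defs

/-! Stubs (statements only): every theorem goes to its own file, see `h564o_tasks`. -/

set_option autoImplicit false

namespace Pool.Agent.H564R3.SR

open Finset
open Pool.Agent.H564R3.PW (Instr runs exec syms)
open Pool.Agent.H564R3.TS
open scoped NNReal

/-! ### A (Wts.lean) -/

theorem wts_exists (n q : ℕ) (hn : 2 ≤ n) : ∃ (κ : Var n q → ℕ) (C : ℕ), Wts n q κ C := by
  sorry

/-! ### B (Exchange.lean) -/

theorem aset_sum {R : Type} [AddCommMonoid R] {n q : ℕ} (a : Fin n → Fin q) (f : Var n q → R) :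
    ∑ x ∈ aset a, f x = ∑ e ∈ prs n, f (cvar a e) := by
  sorry

theorem aset_inj {n q : ℕ} (hn : 2 ≤ n) (a b : Fin n → Fin q) (h : aset a = aset b) : a = b := by
  sorry

theorem exchange {n q : ℕ} (hn : 2 ≤ n) {κ : Var n q → ℕ} {C : ℕ} (hw : Wts n q κ C)
    (T : Set (Var n q → ℕ))
    (hbal : (∀ u ∈ T, C ≤ ∑ x, u x * κ x) ∨ ∀ u ∈ T, ∑ x, u x * κ x ≤ C)
    (a b : Fin n → Fin q) (y z y' z' : Var n q → ℕ) (ha : y + z = ind (aset a))
    (hb : y' + z' = ind (aset b)) (h1 : y + z' ∈ T) (h2 : y' + z ∈ T) : y = y' ∨ z = z' := by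
  sorry

/-! ### C (Core.lean) -/

theorem schnorr {R X ρ Ω : Type} [Zero R] [DecidableEq X] [DecidableEq ρ]
    (p : List (Instr R X ρ)) (o : ρ) (F : Finset Ω) (U : Ω → X → ℕ) (hinj : Set.InjOn U F)
    (hmem : ∀ ω ∈ F, U ω ∈ syms p o)
    (hex : ∀ ω ∈ F, ∀ ω' ∈ F, ∀ y z y' z' : X → ℕ, y + z = U ω → y' + z' = U ω' →
      y + z' ∈ syms p o → y' + z ∈ syms p o → y = y' ∨ z = z') :
    F.card ≤ 2 * p.length := by
  sorry

/-! ### D (Upper.lean) -/

theorem csp_upper {R : Type} [CommSemiring R] (n q : ℕ) (hn : 1 ≤ n) :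
    ∃ (p : List (Instr R (Var n q) (Fin 3))) (o : Fin 3),
      p.length ≤ (n + 1) ^ 2 * q ^ n ∧ ∀ w : Var n q → R, exec w p o = cspSum w := by
  sorry

end Pool.Agent.H564R3.SR
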