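import Pool.Agent.H564R3.SR.Defs
import Pool.Agent.H564R3.PW.Prog

/-! The exhaustive search program. -/

set_option autoImplicit false

namespace Pool.Agent.H564R3.SR

open Finset
open Pool.Agent.H564R3.PW (Instr runs exec syms)
open Pool.Agent.H564R3.TS
open scoped NNReal

theorem SRD_card (n : ℕ) : 2 * (prs n).card ≤ n ^ 2 := by
  have h1 : (univ.filter fun e : Fin n × Fin n => e.2 < e.1).card = (prs n).card := by
    unfold prs
    refine Finset.card_bij (fun e _ => (e.2, e.1)) ?_ ?_ ?_
    · intro e he
      simpa using he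
    · rintro ⟨a, b⟩ _ ⟨c, d⟩ _ h
      simp only [Prod.mk.injEq] at h
      rw [h.1, h.2]
    · rintro ⟨a, b⟩ he
      exact ⟨(b, a), by simpa using he, rfl⟩
  have h2 : Disjoint (prs n) (univ.filter fun e : Fin n × Fin n => e.2 < e.1) := by
    rw [Finset.disjoint_left]
    intro e he he'
    simp only [prs, mem_filter, mem_univ, true_and] at he he'
    exact absurd he' (not_lt.2 he.le)
  have h3 := Finset.card_union_of_disjoint h2
  have h4 : (prs n ∪ univ.filter fun e : Fin n × Fin n => e.2 < e.1).card ≤ n ^ 2 := by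
    refine (Finset.card_le_univ _).trans ?_
    rw [Fintype.card_prod, Fintype.card_fin, pow_two]
  omega

theorem csp_upper {R : Type} [CommSemiring R] (n q : ℕ) (hn : 1 ≤ n) :
    ∃ (p : List (Instr R (Var n q) (Fin 3))) (o : Fin 3),
      p.length ≤ (n + 1) ^ 2 * q ^ n ∧ ∀ w : Var n q → R, exec w p o = cspSum w := by
  let f : (Fin n → Fin q) → List (Instr R (Var n q) (Fin 3)) := fun a =>
    Instr.const 1 1 :: (PW.L1_mul 1 2 ((prs n).toList.map (cvar a)) ++ [Instr.add 0 0 1])
  refine ⟨(univ : Finset (Fin n → Fin q)).toList.flatMap f, 0, ?_, ?_⟩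
  · have h1 := PW.L1_len_flatMap f (univ : Finset (Fin n → Fin q)).toList ((n + 1) ^ 2) (by
      intro a
      simp only [f]
      rw [List.length_cons, List.length_append, PW.L1_mul_length, List.length_map,
        Finset.length_toList]
      have := SRD_card n
      simp only [List.length_cons, List.length_nil]
      nlinarith)
    rw [Finset.length_toList, Finset.card_univ, Fintype.card_fun, Fintype.card_fin,
      Fintype.card_fin] at h1
    rw [mul_comm]
    exact h1
  · intro w
    have hrun : ∀ (a : Fin n → Fin q) (v : Fin 3 → R),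
        runs w (f a) v 0 = v 0 + ∏ e ∈ prs n, w (cvar a e) := by
      intro a v
      simp only [f]
      rw [PW.L1_runs_cons, PW.L1_runs_append]
      obtain ⟨b1, b2⟩ := PW.L1_mul_run (1 : Fin 3) 2 (by decide) w
        ((prs n).toList.map (cvar a)) ((Instr.const 1 1 : Instr R (Var n q) (Fin 3)).run w v)
      rw [PW.L1_runs_cons, PW.L1_runs_nil]
      simp only [Instr.run, Function.update_self] at b1 b2 ⊢
      rw [b1, b2 0 (by decide) (by decide), Function.update_of_ne (by decide), one_mul,
        List.map_map, ← Finset.prod_map_toList]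
      rfl
    have hl := PW.L1_loop (Y := Unit) w f (fun _ => (0 : Fin 3)) (fun _ => False)
      (fun a _ _ => ∏ e ∈ prs n, w (cvar a e))
      (fun a v _ => hrun a v) (fun _ _ _ h => h.elim) (fun _ _ _ _ _ => rfl)
      (univ : Finset (Fin n → Fin q)).toList (fun _ => 0)
    have h2 := hl.1 ()
    unfold exec
    rw [h2, zero_add, Finset.sum_map_toList]
    rfl

end Pool.Agent.H564R3.SR
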