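import Pool.Agent.H564R3.SR.Defs
import Pool.Agent.H564R3.RD.Digits

/-! Task A: generic costs for which all labellings have the same total cost. -/

set_option autoImplicit false

namespace Pool.Agent.H564R3.SR

open Finset
open Pool.Agent.H564R3.PW (Instr runs exec syms)
open Pool.Agent.H564R3.TS
open scoped NNReal

/-- index type -/
abbrev SRA_I (n q : ℕ) : Type := (Fin n × Fin n) ⊕ ((Fin n × Fin q × Fin n) ⊕ Unit)

theorem SRA_digits (I : Type) [Fintype I] [DecidableEq I] (D : ℕ) :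
    ∃ (K : I → ℕ) (b : ℕ), 1 ≤ b ∧ (∀ i, b ≤ K i) ∧
    ∑ i, K i < (Fintype.card I + 1) * b ∧
    ∀ c : I → ℤ, (∀ i, |c i| ≤ (D : ℤ)) → ∑ i, c i * (K i : ℤ) = 0 → ∀ i, c i = 0 := by
  obtain ⟨K', b, hb, hbK, hsum, hind⟩ := RD.digits (Fintype.card I) D
  set e0 : I ≃ Fin (Fintype.card I) := Fintype.equivFin I with he0
  refine ⟨fun i => K' (e0 i), b, hb, fun i => hbK _, ?_, ?_⟩
  · rw [Equiv.sum_comp e0 K']
    exact hsum
  · intro c hc h0 e
    have h1 := hind (fun i => c (e0.symm i)) (fun i => hc _) (by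
      rw [← h0, ← Equiv.sum_comp e0]
      refine Finset.sum_congr rfl (fun e _ => ?_)
      rw [Equiv.symm_apply_apply])
    have h2 := h1 (e0 e)
    simpa using h2

/-- coefficient vector of the part of `v` -/
def SRA_p {n q : ℕ} (lf : Fin n → Fin n) (s : ℤ) (v : Fin n) (α : Fin q) (u : Fin n) :
    SRA_I n q → ℤ
  | Sum.inl _ => 0
  | Sum.inr (Sum.inl w) => if w.1 = v ∧ w.2.1 = α ∧ w.2.2 ≠ v ∧ w.2.2 ≠ lf v then
      (if w.2.2 = u then 1 else 0) - (if u = lf v then 1 else 0) else 0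
  | Sum.inr (Sum.inr _) => if u = lf v then s else 0

/-- coefficient vector of a cost variable -/
def SRA_k {n q : ℕ} (lf : Fin n → Fin n) (s : ℤ) (x : Var n q) (i : SRA_I n q) : ℤ :=
  (if i = Sum.inl (x.1, x.2.1) then 1 else 0) + SRA_p lf s x.1 x.2.2.1 x.2.1 i +
    SRA_p lf s x.2.1 x.2.2.2 x.1 i

/-- the value of a coefficient vector -/
def SRA_L {n q : ℕ} (K : SRA_I n q → ℕ) (c : SRA_I n q → ℤ) : ℤ := ∑ i, c i * (K i : ℤ)

theorem SRA_L_add {n q : ℕ} (K : SRA_I n q → ℕ) (c d : SRA_I n q → ℤ) :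
    SRA_L K (fun i => c i + d i) = SRA_L K c + SRA_L K d := by
  unfold SRA_L
  rw [← Finset.sum_add_distrib]
  exact Finset.sum_congr rfl fun i _ => by ring

theorem SRA_L_sub {n q : ℕ} (K : SRA_I n q → ℕ) (c d : SRA_I n q → ℤ) :
    SRA_L K (fun i => c i - d i) = SRA_L K c - SRA_L K d := by
  unfold SRA_L
  rw [← Finset.sum_sub_distrib]
  exact Finset.sum_congr rfl fun i _ => by ring

theorem SRA_L_sum {n q : ℕ} {J : Type} (K : SRA_I n q → ℕ) (s : Finset J) (g : J → ℤ)
    (c : J → SRA_I n q → ℤ) :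
    SRA_L K (fun i => ∑ j ∈ s, g j * c j i) = ∑ j ∈ s, g j * SRA_L K (c j) := by
  unfold SRA_L
  simp only [Finset.mul_sum, Finset.sum_mul]
  rw [Finset.sum_comm]
  refine Finset.sum_congr rfl fun j _ => Finset.sum_congr rfl fun i _ => by ring

theorem SRA_Lp {n q : ℕ} (K : SRA_I n q → ℕ) (lf : Fin n → Fin n) (s : ℤ) (v : Fin n)
    (α : Fin q) (u : Fin n) :
    SRA_L K (SRA_p lf s v α u) =
      ∑ u' ∈ univ.filter (fun u' => u' ≠ v ∧ u' ≠ lf v),
        ((if u' = u then (1 : ℤ) else 0) - (if u = lf v then 1 else 0)) *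
          (K (Sum.inr (Sum.inl (v, α, u'))) : ℤ) +
      (if u = lf v then s else 0) * (K (Sum.inr (Sum.inr ())) : ℤ) := by
  unfold SRA_L
  rw [Fintype.sum_sum_type, Fintype.sum_sum_type]
  simp only [SRA_p, zero_mul, Finset.sum_const_zero, zero_add, Finset.univ_unique,
    Finset.sum_singleton]
  congr 1
  rw [Fintype.sum_prod_type, Finset.sum_eq_single v, Fintype.sum_prod_type,
    Finset.sum_eq_single α, Finset.sum_filter]
  · refine Finset.sum_congr rfl fun u' _ => ?_
    by_cases h : u' ≠ v ∧ u' ≠ lf v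
    · rw [if_pos h, if_pos ⟨rfl, rfl, h⟩]
    · rw [if_neg h, if_neg (fun hh => h hh.2.2), zero_mul]
  · intro β _ hβ
    refine Finset.sum_eq_zero fun u' _ => ?_
    rw [if_neg (fun hh => hβ hh.2.1), zero_mul]
  · intro h; exact absurd (Finset.mem_univ _) h
  · intro w _ hw
    refine Finset.sum_eq_zero fun u' _ => ?_
    rw [if_neg (fun hh => hw hh.1), zero_mul]
  · intro h; exact absurd (Finset.mem_univ _) h

theorem SRA_cardN {n : ℕ} (lf : Fin n → Fin n) (hlf : ∀ v, lf v ≠ v) (v : Fin n) :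
    (univ.filter (fun u' => u' ≠ v ∧ u' ≠ lf v)).card = n - 2 := by
  have h : univ.filter (fun u' => u' ≠ v ∧ u' ≠ lf v) = ((univ : Finset (Fin n)).erase v).erase (lf v) := by
    ext u
    simp only [Finset.mem_filter, Finset.mem_univ, true_and, Finset.mem_erase, and_true]
    exact and_comm
  rw [h, Finset.card_erase_of_mem (Finset.mem_erase.2 ⟨hlf v, Finset.mem_univ _⟩),
    Finset.card_erase_of_mem (Finset.mem_univ _), Finset.card_univ, Fintype.card_fin]
  omega

theorem SRA_Lp_lf {n q : ℕ} (K : SRA_I n q → ℕ) (lf : Fin n → Fin n) (s : ℤ) (v : Fin n)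
    (α : Fin q) :
    SRA_L K (SRA_p lf s v α (lf v)) = s * (K (Sum.inr (Sum.inr ())) : ℤ) -
      ∑ u' ∈ univ.filter (fun u' => u' ≠ v ∧ u' ≠ lf v),
          (K (Sum.inr (Sum.inl (v, α, u'))) : ℤ) := by
  rw [SRA_Lp, if_pos rfl]
  have h : ∑ u' ∈ univ.filter (fun u' => u' ≠ v ∧ u' ≠ lf v),
        ((if u' = lf v then (1 : ℤ) else 0) - 1) *
          (K (Sum.inr (Sum.inl (v, α, u'))) : ℤ) =
      - ∑ u' ∈ univ.filter (fun u' => u' ≠ v ∧ u' ≠ lf v),
          (K (Sum.inr (Sum.inl (v, α, u'))) : ℤ) := by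
    rw [← Finset.sum_neg_distrib]
    refine Finset.sum_congr rfl fun u' hu' => ?_
    rw [if_neg (Finset.mem_filter.1 hu').2.2]
    ring
  rw [if_pos rfl, h]
  ring

theorem SRA_Lp_ne {n q : ℕ} (K : SRA_I n q → ℕ) (lf : Fin n → Fin n) (s : ℤ) (v : Fin n)
    (α : Fin q) (u : Fin n) (huv : u ≠ v) (hul : u ≠ lf v) :
    SRA_L K (SRA_p lf s v α u) = (K (Sum.inr (Sum.inl (v, α, u))) : ℤ) := by
  rw [SRA_Lp, if_neg hul, if_neg hul, zero_mul, add_zero, Finset.sum_eq_single u]
  · rw [if_pos rfl]; ring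
  · intro u' _ hne
    rw [if_neg hne]; ring
  · intro h
    exact absurd (Finset.mem_filter.2 ⟨Finset.mem_univ _, huv, hul⟩) h

theorem SRA_Lp_nonneg {n q : ℕ} (K : SRA_I n q → ℕ) (lf : Fin n → Fin n)
    (hlf : ∀ v, lf v ≠ v) (m : ℕ) (hR : ∀ i, K i ≤ m * K (Sum.inr (Sum.inr ())))
    (v : Fin n) (α : Fin q) (u : Fin n) (huv : u ≠ v) :
    0 ≤ SRA_L K (SRA_p lf (((n - 2 : ℕ) : ℤ) * (m : ℤ)) v α u) := by
  by_cases h : u = lf v
  · subst h
    rw [SRA_Lp_lf]
    have h1 : ∑ u' ∈ univ.filter (fun u' => u' ≠ v ∧ u' ≠ lf v),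
          (K (Sum.inr (Sum.inl (v, α, u'))) : ℤ) ≤
        (univ.filter (fun u' => u' ≠ v ∧ u' ≠ lf v)).card • ((m : ℤ) * (K (Sum.inr (Sum.inr ())) : ℤ)) := by
      refine Finset.sum_le_card_nsmul _ _ _ fun u' _ => ?_
      exact_mod_cast hR _
    rw [SRA_cardN lf hlf v, nsmul_eq_mul] at h1
    linarith
  · rw [SRA_Lp_ne K lf _ v α u huv h]
    exact Int.natCast_nonneg _

theorem SRA_Lp_tot {n q : ℕ} (K : SRA_I n q → ℕ) (lf : Fin n → Fin n)
    (hlf : ∀ v, lf v ≠ v) (s : ℤ) (v : Fin n) (α : Fin q) :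
    ∑ u ∈ univ.erase v, SRA_L K (SRA_p lf s v α u) = s * (K (Sum.inr (Sum.inr ())) : ℤ) := by
  have h0 : lf v ∈ (univ : Finset (Fin n)).erase v := Finset.mem_erase.2 ⟨hlf v, Finset.mem_univ _⟩
  rw [← Finset.add_sum_erase _ _ h0, SRA_Lp_lf]
  have h : ((univ : Finset (Fin n)).erase v).erase (lf v) =
      univ.filter (fun u' => u' ≠ v ∧ u' ≠ lf v) := by
    ext u
    simp only [Finset.mem_filter, Finset.mem_univ, true_and, Finset.mem_erase, and_true]
    exact and_comm
  rw [h]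
  have h2 : ∑ u ∈ univ.filter (fun u' => u' ≠ v ∧ u' ≠ lf v), SRA_L K (SRA_p lf s v α u) =
      ∑ u ∈ univ.filter (fun u' => u' ≠ v ∧ u' ≠ lf v),
        (K (Sum.inr (Sum.inl (v, α, u))) : ℤ) := by
    refine Finset.sum_congr rfl fun u hu => ?_
    have := (Finset.mem_filter.1 hu).2
    exact SRA_Lp_ne K lf s v α u this.1 this.2
  rw [h2]
  ring

theorem SRA_pairs {n : ℕ} (f : Fin n → Fin n → ℤ) :
    ∑ e ∈ prs n, (f e.1 e.2 + f e.2 e.1) = ∑ v, ∑ u ∈ univ.erase v, f v u := by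
  unfold prs
  rw [Finset.sum_filter, Fintype.sum_prod_type]
  have h1 : ∀ v : Fin n, ∑ u ∈ univ.erase v, f v u =
      ∑ u, ((if v < u then f v u else 0) + (if u < v then f v u else 0)) := by
    intro v
    rw [← Finset.sum_erase_add (a := v) univ _ (Finset.mem_univ v)]
    have : (if v < v then f v v else 0) + (if v < v then f v v else 0) = 0 := by simp
    rw [this, add_zero]
    refine Finset.sum_congr rfl fun u hu => ?_
    have hne : u ≠ v := (Finset.mem_erase.1 hu).1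
    rcases lt_or_gt_of_ne hne with h | h
    · rw [if_neg (not_lt.2 h.le), if_pos h, zero_add]
    · rw [if_pos h, if_neg (not_lt.2 h.le), add_zero]
  rw [Finset.sum_congr rfl (fun v _ => h1 v)]
  simp only [Finset.sum_add_distrib]
  rw [Finset.sum_comm (f := fun v u => if u < v then f v u else 0)]
  rw [← Finset.sum_add_distrib]
  refine Finset.sum_congr rfl fun i _ => ?_
  rw [← Finset.sum_add_distrib]
  refine Finset.sum_congr rfl fun j _ => ?_
  split_ifs <;> simp

theorem SRA_asum {n q : ℕ} (a : Fin n → Fin q) (f : Var n q → ℤ) :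
    ∑ x ∈ aset a, f x = ∑ e ∈ prs n, f (cvar a e) := by
  unfold aset
  rw [Finset.sum_image]
  intro x _ y _ h
  simp only [cvar, Prod.mk.injEq] at h
  exact Prod.ext h.1 h.2.1

theorem SRA_p_abs {n q : ℕ} (lf : Fin n → Fin n) (m : ℕ) (v : Fin n) (α : Fin q) (u : Fin n)
    (i : SRA_I n q) : |SRA_p lf (((n - 2 : ℕ) : ℤ) * (m : ℤ)) v α u i| ≤ ((n * m + 1 : ℕ) : ℤ) := by
  have h0 : (0 : ℤ) ≤ ((n * m : ℕ) : ℤ) := Int.natCast_nonneg _
  rcases i with i | i | i
  · simp only [SRA_p, abs_zero]; exact Int.natCast_nonneg _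
  · simp only [SRA_p]
    push_cast at h0 ⊢
    rw [abs_le]
    split_ifs <;> constructor <;> linarith
  · simp only [SRA_p]
    have h1 : ((n - 2 : ℕ) : ℤ) * (m : ℤ) ≤ ((n * m : ℕ) : ℤ) := by
      push_cast
      apply mul_le_mul_of_nonneg_right _ (Int.natCast_nonneg _)
      omega
    have h2 : (0 : ℤ) ≤ ((n - 2 : ℕ) : ℤ) * (m : ℤ) := by positivity
    push_cast at h0 h1 ⊢
    rw [abs_le]
    split_ifs <;> constructor <;> linarith

theorem SRA_k_abs {n q : ℕ} (lf : Fin n → Fin n) (m : ℕ) (x : Var n q)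
    (i : SRA_I n q) : |SRA_k lf (((n - 2 : ℕ) : ℤ) * (m : ℤ)) x i| ≤ ((2 * (n * m + 1) + 1 : ℕ) : ℤ) := by
  unfold SRA_k
  have h1 := SRA_p_abs lf m x.1 x.2.2.1 x.2.1 i
  have h2 := SRA_p_abs lf m x.2.1 x.2.2.2 x.1 i
  have h3 : |(if i = Sum.inl (x.1, x.2.1) then (1 : ℤ) else 0)| ≤ 1 := by
    split_ifs <;> simp
  have h4 := abs_add_three (if i = Sum.inl (x.1, x.2.1) then (1 : ℤ) else 0)
    (SRA_p lf (((n - 2 : ℕ) : ℤ) * (m : ℤ)) x.1 x.2.2.1 x.2.1 i)
    (SRA_p lf (((n - 2 : ℕ) : ℤ) * (m : ℤ)) x.2.1 x.2.2.2 x.1 i)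
  push_cast at h1 h2 ⊢
  linarith

theorem SRA_Lk {n q : ℕ} (K : SRA_I n q → ℕ) (lf : Fin n → Fin n) (s : ℤ) (x : Var n q) :
    SRA_L K (SRA_k lf s x) = (K (Sum.inl (x.1, x.2.1)) : ℤ) +
      SRA_L K (SRA_p lf s x.1 x.2.2.1 x.2.1) + SRA_L K (SRA_p lf s x.2.1 x.2.2.2 x.1) := by
  unfold SRA_L SRA_k
  simp only [add_mul, Finset.sum_add_distrib]
  congr 2
  rw [Finset.sum_eq_single (Sum.inl (x.1, x.2.1))]
  · rw [if_pos rfl, one_mul]
  · intro i _ hi; rw [if_neg hi, zero_mul]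
  · intro h; exact absurd (Finset.mem_univ _) h

/-- coefficient at a pair -/
theorem SRA_k_inl {n q : ℕ} (lf : Fin n → Fin n) (s : ℤ) (a : Fin n → Fin q)
    (e f : Fin n × Fin n) :
    SRA_k lf s (cvar a e) (Sum.inl f) = if e = f then 1 else 0 := by
  unfold SRA_k cvar
  simp only [SRA_p, add_zero, Sum.inl.injEq]
  by_cases h : e = f
  · rw [if_pos h, if_pos h.symm]
  · rw [if_neg h, if_neg (fun hh => h hh.symm)]

/-- coefficient at `(v, a v, u')` -/
theorem SRA_k_inr {n q : ℕ} (lf : Fin n → Fin n) (s : ℤ) (a : Fin n → Fin q)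
    (e : Fin n × Fin n) (v u' : Fin n) (h1 : u' ≠ v) (h2 : u' ≠ lf v) :
    SRA_k lf s (cvar a e) (Sum.inr (Sum.inl (v, a v, u'))) =
      ((if e = (v, u') then 1 else 0) + (if e = (u', v) then 1 else 0)) -
      ((if e = (v, lf v) then 1 else 0) + (if e = (lf v, v) then 1 else 0)) := by
  obtain ⟨i, j⟩ := e
  unfold SRA_k cvar
  simp only [SRA_p, reduceCtorEq, if_false, zero_add, Prod.mk.injEq]
  have e1 : (if v = i ∧ a v = a i ∧ u' ≠ i ∧ u' ≠ lf i then
      ((if u' = j then (1 : ℤ) else 0) - (if j = lf i then 1 else 0)) else 0) =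
      (if i = v ∧ j = u' then (1 : ℤ) else 0) - (if i = v ∧ j = lf v then 1 else 0) := by
    by_cases h : i = v
    · subst h
      rw [if_pos ⟨rfl, rfl, h1, h2⟩]
      simp only [true_and]
      congr 1
      by_cases hj : u' = j
      · rw [if_pos hj, if_pos hj.symm]
      · rw [if_neg hj, if_neg (fun hh => hj hh.symm)]
    · rw [if_neg (fun hh => h hh.1.symm), if_neg (fun hh => h hh.1), if_neg (fun hh => h hh.1)]
      ring
  have e2 : (if v = j ∧ a v = a j ∧ u' ≠ j ∧ u' ≠ lf j then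
      ((if u' = i then (1 : ℤ) else 0) - (if i = lf j then 1 else 0)) else 0) =
      (if i = u' ∧ j = v then (1 : ℤ) else 0) - (if i = lf v ∧ j = v then 1 else 0) := by
    by_cases h : j = v
    · subst h
      rw [if_pos ⟨rfl, rfl, h1, h2⟩]
      simp only [and_true]
      congr 1
      by_cases hj : u' = i
      · rw [if_pos hj, if_pos hj.symm]
      · rw [if_neg hj, if_neg (fun hh => hj hh.symm)]
    · rw [if_neg (fun hh => h hh.1.symm), if_neg (fun hh => h hh.2), if_neg (fun hh => h hh.2)]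
      ring
  rw [e1, e2]
  ring

/-- coefficient at `(v, α, u')` with another label -/
theorem SRA_k_inr' {n q : ℕ} (lf : Fin n → Fin n) (s : ℤ) (b : Fin n → Fin q)
    (e : Fin n × Fin n) (v u' : Fin n) (α : Fin q) (h : α ≠ b v) :
    SRA_k lf s (cvar b e) (Sum.inr (Sum.inl (v, α, u'))) = 0 := by
  obtain ⟨i, j⟩ := e
  unfold SRA_k cvar
  simp only [SRA_p, reduceCtorEq, if_false, zero_add]
  have e1 : ¬ (v = i ∧ α = b i ∧ u' ≠ i ∧ u' ≠ lf i) := by
    rintro ⟨rfl, hh, _⟩; exact h hh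
  have e2 : ¬ (v = j ∧ α = b j ∧ u' ≠ j ∧ u' ≠ lf j) := by
    rintro ⟨rfl, hh, _⟩; exact h hh
  rw [if_neg e1, if_neg e2]
  ring

theorem SRA_ind_sum {n : ℕ} (P : Finset (Fin n × Fin n)) (f : Fin n × Fin n) :
    ∑ e ∈ P, (if e = f then (1 : ℤ) else 0) = if f ∈ P then 1 else 0 := by
  by_cases h : f ∈ P
  · rw [if_pos h, Finset.sum_eq_single f]
    · rw [if_pos rfl]
    · intro e _ he; rw [if_neg he]
    · intro h'; exact absurd h h'
  · rw [if_neg h]
    refine Finset.sum_eq_zero fun e he => ?_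
    rw [if_neg]
    rintro rfl; exact h he

theorem SRA_log (p1 p2 p3 p4 : Prop) [Decidable p1] [Decidable p2] [Decidable p3] [Decidable p4]
    (h : ((if p1 then (1 : ℤ) else 0) + (if p2 then 1 else 0)) -
      ((if p3 then (1 : ℤ) else 0) + (if p4 then 1 else 0)) = 0)
    (n1 : ¬ (p1 ∧ p2)) (n2 : ¬ (p3 ∧ p4)) : (p1 ∨ p2) ↔ (p3 ∨ p4) := by
  by_cases c1 : p1 <;> by_cases c2 : p2 <;> by_cases c3 : p3 <;> by_cases c4 : p4 <;>
    simp_all

theorem wts_exists (n q : ℕ) (hn : 2 ≤ n) : ∃ (κ : Var n q → ℕ) (C : ℕ), Wts n q κ C := by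
  classical
  -- the leaf function
  obtain ⟨lf, hlf⟩ : ∃ lf : Fin n → Fin n, ∀ v, lf v ≠ v := by
    refine ⟨fun v => if v.1 = 0 then ⟨1, by omega⟩ else ⟨0, by omega⟩, fun v h => ?_⟩
    have h' : (if v.1 = 0 then (⟨1, by omega⟩ : Fin n) else ⟨0, by omega⟩) = v := h
    by_cases hv : v.1 = 0
    · rw [if_pos hv] at h'
      have := congrArg Fin.val h'
      simp only at this
      omega
    · rw [if_neg hv] at h'
      have := congrArg Fin.val h'
      simp only at this
      omega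
  set M := Fintype.card (SRA_I n q) with hM
  set m := M + 1 with hm
  set Ub := m + n ^ 2 * m ^ 2 + 1 with hUb
  set B := 2 * (n * m + 1) + 1 with hB
  obtain ⟨K, b, hb, hbK, hsum, hind⟩ := SRA_digits (SRA_I n q) (2 * (n * n) * Ub * B)
  set st : SRA_I n q := Sum.inr (Sum.inr ()) with hst
  set s : ℤ := ((n - 2 : ℕ) : ℤ) * (m : ℤ) with hs
  have hKb : ∀ i, K i ≤ m * b := fun i =>
    (Finset.single_le_sum (f := K) (fun _ _ => Nat.zero_le _) (Finset.mem_univ i)).trans hsum.le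
  have hR : ∀ i, K i ≤ m * K st := fun i => (hKb i).trans (Nat.mul_le_mul_left _ (hbK st))
  set κ : Var n q → ℕ := fun x => (SRA_L K (SRA_k lf s x)).toNat with hκ
  have hκ1 : ∀ (a : Fin n → Fin q) (e : Fin n × Fin n), e ∈ prs n →
      (κ (cvar a e) : ℤ) = SRA_L K (SRA_k lf s (cvar a e)) ∧ b ≤ κ (cvar a e) := by
    intro a e he
    have hlt : e.1 < e.2 := (Finset.mem_filter.1 he).2
    have h1 := SRA_Lp_nonneg K lf hlf m hR e.1 (a e.1) e.2 hlt.ne'
    have h2 := SRA_Lp_nonneg K lf hlf m hR e.2 (a e.2) e.1 hlt.ne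
    have h3 := SRA_Lk K lf s (cvar a e)
    simp only [cvar] at h3
    have h4 : (b : ℤ) ≤ (K (Sum.inl (e.1, e.2)) : ℤ) := by exact_mod_cast hbK _
    have h5 : (b : ℤ) ≤ SRA_L K (SRA_k lf s (cvar a e)) := by
      simp only [cvar]
      rw [h3]; linarith
    have h6 : (κ (cvar a e) : ℤ) = SRA_L K (SRA_k lf s (cvar a e)) := by
      simp only [hκ]
      apply Int.toNat_of_nonneg
      exact le_trans (Int.natCast_nonneg _) h5
    refine ⟨h6, ?_⟩
    have : (b : ℤ) ≤ (κ (cvar a e) : ℤ) := by rw [h6]; exact h5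
    exact_mod_cast this
  set C : ℕ := ∑ e ∈ prs n, K (Sum.inl e) + n * ((n - 2) * m * K st) with hC
  have htot : ∀ a : Fin n → Fin q, ∑ x ∈ aset a, κ x = C := by
    intro a
    have h1 : ((∑ x ∈ aset a, κ x : ℕ) : ℤ) = (C : ℤ) := by
      push_cast
      rw [SRA_asum a (fun x => (κ x : ℤ))]
      rw [Finset.sum_congr rfl (fun e he => (hκ1 a e he).1)]
      have h2 : ∀ e ∈ prs n, SRA_L K (SRA_k lf s (cvar a e)) = (K (Sum.inl e) : ℤ) +
          (SRA_L K (SRA_p lf s e.1 (a e.1) e.2) + SRA_L K (SRA_p lf s e.2 (a e.2) e.1)) := by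
        intro e _
        rw [SRA_Lk]
        simp only [cvar]
        ring
      rw [Finset.sum_congr rfl h2, Finset.sum_add_distrib,
        SRA_pairs (fun v u => SRA_L K (SRA_p lf s v (a v) u))]
      rw [Finset.sum_congr rfl (fun v _ => SRA_Lp_tot K lf hlf s v (a v))]
      rw [Finset.sum_const, Finset.card_univ, Fintype.card_fin, nsmul_eq_mul, hC, hs]
      push_cast
      ring
    exact_mod_cast h1
  have hprs : (prs n).card ≤ n * n := by
    unfold prs
    refine (Finset.card_filter_le _ _).trans ?_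
    rw [Finset.card_univ, Fintype.card_prod, Fintype.card_fin]
  have hCb : C ≤ (m + n ^ 2 * m ^ 2) * b := by
    have h1 : ∑ e ∈ prs n, K (Sum.inl e) ≤ m * b := by
      refine le_trans ?_ hsum.le
      have h2 : ∑ e ∈ prs n, K (Sum.inl e) = ∑ i ∈ (prs n).map ⟨Sum.inl, Sum.inl_injective⟩, K i := by
        rw [Finset.sum_map]; rfl
      rw [h2]
      exact Finset.sum_le_sum_of_subset (Finset.subset_univ _)
    have h2 : n * ((n - 2) * m * K st) ≤ n * (n * m * (m * b)) := by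
      apply Nat.mul_le_mul_left
      apply Nat.mul_le_mul _ (hKb st)
      apply Nat.mul_le_mul_right
      omega
    calc C ≤ m * b + n * (n * m * (m * b)) := Nat.add_le_add h1 h2
      _ = (m + n ^ 2 * m ^ 2) * b := by ring
  refine ⟨κ, C, htot, ?_, ?_⟩
  · -- one
    intro a u hu hsumu
    have hub : ∀ e ∈ prs n, u (cvar a e) ≤ m + n ^ 2 * m ^ 2 := by
      intro e he
      have h1 : u (cvar a e) * κ (cvar a e) ≤ C := by
        rw [← hsumu]
        exact Finset.single_le_sum (f := fun x => u x * κ x)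
          (fun _ _ => Nat.zero_le _) (Finset.mem_univ _)
      have h2 : u (cvar a e) * b ≤ (m + n ^ 2 * m ^ 2) * b :=
        ((Nat.mul_le_mul_left _ (hκ1 a e he).2).trans h1).trans hCb
      exact Nat.le_of_mul_le_mul_right h2 hb
    have hz : ∑ e ∈ prs n, ((u (cvar a e) : ℤ) - 1) * SRA_L K (SRA_k lf s (cvar a e)) = 0 := by
      have h1 : ∑ e ∈ prs n, ((u (cvar a e) : ℤ) - 1) * SRA_L K (SRA_k lf s (cvar a e)) =
          ∑ e ∈ prs n, ((u (cvar a e) : ℤ) * (κ (cvar a e) : ℤ) - (κ (cvar a e) : ℤ)) := by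
        refine Finset.sum_congr rfl fun e he => ?_
        rw [(hκ1 a e he).1]; ring
      rw [h1, Finset.sum_sub_distrib, ← SRA_asum a (fun x => (u x : ℤ) * (κ x : ℤ)),
        ← SRA_asum a (fun x => (κ x : ℤ))]
      have h2 : ∑ x ∈ aset a, (u x : ℤ) * (κ x : ℤ) = ((C : ℕ) : ℤ) := by
        rw [← hsumu]
        push_cast
        apply Finset.sum_subset (Finset.subset_univ _)
        intro x _ hx
        rw [hu x hx]; simp
      have h3 : ∑ x ∈ aset a, (κ x : ℤ) = ((C : ℕ) : ℤ) := by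
        rw [← htot a]; push_cast; rfl
      rw [h2, h3, sub_self]
    rw [← SRA_L_sum K (prs n) (fun e => (u (cvar a e) : ℤ) - 1) (fun e => SRA_k lf s (cvar a e))] at hz
    have hc := hind _ (by
      intro i
      refine (Finset.abs_sum_le_sum_abs _ _).trans ?_
      have h1 : ∀ e ∈ prs n, |((u (cvar a e) : ℤ) - 1) * SRA_k lf s (cvar a e) i| ≤ ((Ub * B : ℕ) : ℤ) := by
        intro e he
        rw [abs_mul]
        push_cast
        have h2 : |(u (cvar a e) : ℤ) - 1| ≤ (Ub : ℤ) := by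
          have h3 : (u (cvar a e) : ℤ) ≤ ((m + n ^ 2 * m ^ 2 : ℕ) : ℤ) := by exact_mod_cast hub e he
          have h4 : (0 : ℤ) ≤ (u (cvar a e) : ℤ) := Int.natCast_nonneg _
          have h5 : (1 : ℤ) ≤ (Ub : ℤ) := by
            have : 1 ≤ Ub := by omega
            exact_mod_cast this
          have h6 : (Ub : ℤ) = ((m + n ^ 2 * m ^ 2 : ℕ) : ℤ) + 1 := by rw [hUb]; push_cast; ring
          rw [abs_le]
          constructor <;> linarith
        have h7 := SRA_k_abs lf m (cvar a e) i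
        exact mul_le_mul h2 h7 (abs_nonneg _) (Int.natCast_nonneg _)
      refine (Finset.sum_le_card_nsmul _ _ _ h1).trans ?_
      rw [nsmul_eq_mul]
      have h8 : (prs n).card * (Ub * B) ≤ 2 * (n * n) * Ub * B := by
        calc (prs n).card * (Ub * B) ≤ (n * n) * (Ub * B) := Nat.mul_le_mul_right _ hprs
          _ ≤ 2 * ((n * n) * (Ub * B)) := by omega
          _ = 2 * (n * n) * Ub * B := by ring
      exact_mod_cast h8) hz
    funext x
    unfold ind
    by_cases hx : x ∈ aset a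
    · rw [if_pos hx]
      obtain ⟨e, he, rfl⟩ := Finset.mem_image.1 hx
      have h1 := hc (Sum.inl e)
      simp only [SRA_k_inl] at h1
      rw [Finset.sum_eq_single e] at h1
      · rw [if_pos rfl] at h1
        omega
      · intro e' _ he'
        rw [if_neg he', mul_zero]
      · intro h; exact absurd he h
    · rw [if_neg hx]
      exact hu x hx
  · -- gen
    intro a b' P P' hP hP' hEq
    have hz : SRA_L K (fun i => (∑ e ∈ P, 1 * SRA_k lf s (cvar a e) i) -
        ∑ e ∈ P', 1 * SRA_k lf s (cvar b' e) i) = 0 := by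
      rw [SRA_L_sub, SRA_L_sum K P (fun _ => 1) (fun e => SRA_k lf s (cvar a e)),
        SRA_L_sum K P' (fun _ => 1) (fun e => SRA_k lf s (cvar b' e))]
      have h1 : ∑ e ∈ P, 1 * SRA_L K (SRA_k lf s (cvar a e)) = ((∑ e ∈ P, κ (cvar a e) : ℕ) : ℤ) := by
        push_cast
        refine Finset.sum_congr rfl fun e he => ?_
        rw [one_mul, (hκ1 a e (hP he)).1]
      have h2 : ∑ e ∈ P', 1 * SRA_L K (SRA_k lf s (cvar b' e)) =
          ((∑ e ∈ P', κ (cvar b' e) : ℕ) : ℤ) := by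
        push_cast
        refine Finset.sum_congr rfl fun e he => ?_
        rw [one_mul, (hκ1 b' e (hP' he)).1]
      rw [h1, h2, hEq, sub_self]
    simp only [one_mul] at hz
    have hbound : ∀ (a : Fin n → Fin q) (P : Finset (Fin n × Fin n)), P ⊆ prs n →
        ∀ i, |∑ e ∈ P, SRA_k lf s (cvar a e) i| ≤ ((n * n * B : ℕ) : ℤ) := by
      intro a P hP i
      refine (Finset.abs_sum_le_sum_abs _ _).trans ?_
      refine (Finset.sum_le_card_nsmul _ _ _ (fun e _ => SRA_k_abs lf m (cvar a e) i)).trans ?_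
      rw [nsmul_eq_mul]
      have h8 : P.card * B ≤ n * n * B :=
        Nat.mul_le_mul_right _ ((Finset.card_le_card hP).trans hprs)
      exact_mod_cast h8
    have hc := hind _ (by
      intro i
      have h1 := hbound a P hP i
      have h2 := hbound b' P' hP' i
      have h3 := abs_sub (∑ e ∈ P, SRA_k lf s (cvar a e) i) (∑ e ∈ P', SRA_k lf s (cvar b' e) i)
      have h4 : 2 * (n * n * B) ≤ 2 * (n * n) * Ub * B := by
        have : 1 ≤ Ub := by omega
        calc 2 * (n * n * B) = 2 * (n * n) * 1 * B := by ring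
          _ ≤ 2 * (n * n) * Ub * B := by
            apply Nat.mul_le_mul_right
            exact Nat.mul_le_mul_left _ this
      have h5 : (2 : ℤ) * ((n * n * B : ℕ) : ℤ) ≤ ((2 * (n * n) * Ub * B : ℕ) : ℤ) := by
        exact_mod_cast h4
      linarith) hz
    have hPP : P = P' := by
      ext f
      have h1 := hc (Sum.inl f)
      simp only [SRA_k_inl, SRA_ind_sum] at h1
      by_cases h2 : f ∈ P
      · by_cases h3 : f ∈ P'
        · exact iff_of_true h2 h3
        · rw [if_pos h2, if_neg h3] at h1; omega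
      · by_cases h3 : f ∈ P'
        · rw [if_neg h2, if_pos h3] at h1; omega
        · exact iff_of_false h2 h3
    refine ⟨hPP, ?_⟩
    intro v hv
    have hcoef : ∀ u', u' ≠ v → u' ≠ lf v →
        (((v, u') ∈ P ∨ (u', v) ∈ P) ↔ ((v, lf v) ∈ P ∨ (lf v, v) ∈ P)) := by
      intro u' h1 h2
      have h3 := hc (Sum.inr (Sum.inl (v, a v, u')))
      have h4 : ∑ e ∈ P', SRA_k lf s (cvar b' e) (Sum.inr (Sum.inl (v, a v, u'))) = 0 :=
        Finset.sum_eq_zero fun e _ => SRA_k_inr' lf s b' e v u' (a v) hv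
      rw [h4, sub_zero, Finset.sum_congr rfl (fun e _ => SRA_k_inr lf s a e v u' h1 h2)] at h3
      rw [Finset.sum_sub_distrib, Finset.sum_add_distrib, Finset.sum_add_distrib] at h3
      simp only [SRA_ind_sum] at h3
      have nb : ∀ w : Fin n, ¬ ((v, w) ∈ P ∧ (w, v) ∈ P) := by
        rintro w ⟨g1, g2⟩
        have g3 := (Finset.mem_filter.1 (hP g1)).2
        have g4 := (Finset.mem_filter.1 (hP g2)).2
        exact absurd g3 (not_lt.2 (le_of_lt g4))
      exact SRA_log _ _ _ _ h3 (nb u') (nb (lf v))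
    by_cases hl : (v, lf v) ∈ P ∨ (lf v, v) ∈ P
    · left
      have hall : ∀ w, w ≠ v → (v, w) ∈ P ∨ (w, v) ∈ P := by
        intro w hw
        by_cases hwl : w = lf v
        · rw [hwl]; exact hl
        · exact (hcoef w hw hwl).2 hl
      intro e he hev
      have hlt : e.1 < e.2 := (Finset.mem_filter.1 he).2
      rcases hev with h | h
      · have hw : e.2 ≠ v := by rw [← h]; exact hlt.ne'
        rcases hall e.2 hw with h1 | h1
        · rw [← h] at h1; exact h1
        · have := (Finset.mem_filter.1 (hP h1)).2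
          simp only at this
          rw [← h] at this
          exact absurd this (not_lt.2 hlt.le)
      · have hw : e.1 ≠ v := by rw [← h]; exact hlt.ne
        rcases hall e.1 hw with h1 | h1
        · have := (Finset.mem_filter.1 (hP h1)).2
          simp only at this
          rw [← h] at this
          exact absurd this (not_lt.2 hlt.le)
        · rw [← h] at h1; exact h1
    · right
      intro e he
      have hlt : e.1 < e.2 := (Finset.mem_filter.1 (hP he)).2
      constructor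
      · intro h
        have hw : e.2 ≠ v := by rw [← h]; exact hlt.ne'
        have h1 : (v, e.2) ∈ P := by rw [← h]; exact he
        by_cases hwl : e.2 = lf v
        · rw [hwl] at h1; exact hl (Or.inl h1)
        · exact hl ((hcoef e.2 hw hwl).1 (Or.inl h1))
      · intro h
        have hw : e.1 ≠ v := by rw [← h]; exact hlt.ne
        have h1 : (e.1, v) ∈ P := by rw [← h]; exact he
        by_cases hwl : e.1 = lf v
        · rw [hwl] at h1; exact hl (Or.inr h1)
        · exact hl ((hcoef e.1 hw hwl).1 (Or.inr h1))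

end Pool.Agent.H564R3.SR
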